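import Pool.Agent.H26.BpbNeg

/-! A pair of Banach spaces which has the compact-operator version of the pointwise
Bishop-Phelps-Bollobas property, but not the pointwise Bishop-Phelps-Bollobas property. -/

namespace Pool.Agent.Results.MP_a54cc7_an.CompactNotPointwise

open Pool.Agent.H26.Bpb

theorem result (𝕜 : Type) [RCLike 𝕜] :
    ∃ (X Y : Type) (_ : NormedAddCommGroup X) (_ : NormedSpace 𝕜 X) (_ : CompleteSpace X)
      (_ : NormedAddCommGroup Y) (_ : NormedSpace 𝕜 Y) (_ : CompleteSpace Y),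
      PointwiseBPBCompact 𝕜 X Y ∧ ¬ PointwiseBPB 𝕜 X Y := by
  obtain ⟨Y, i1, i2, i3, Z, G, A, R, p1, p2, p3, p4, p5, p6, p7, p8⟩ := exists_space 𝕜
  exact ⟨XX 𝕜, Y, inferInstance, inferInstance, inferInstance, i1, i2, i3,
    compact_pos R p6 p7 p8, not_bpb Z G A p1 p2 p3 p4 p5⟩

end Pool.Agent.Results.MP_a54cc7_an.CompactNotPointwise
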